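import Pool.Agent.Helper45.U4.St1

/-!
# Project U4 (MP_a1f43d_co): module DCT, double counting
-/

set_option autoImplicit false

open Module Classical
open scoped LinearAlgebra.Projectivization

namespace Pool.Agent.Helper94.U4

open Pool.Agent.Helper45.U4 Pool.Agent.Helper53.PB

theorem hDCT : StDCT := by
  intro F V _ _ _ _ _ _ P f H k hF hH
  have h1 : ∑ X ∈ pts H, nf P f X = ∑ y, f y * ((pts (H ⊓ LinearMap.ker (P.f y.rep))).card : ℤ) := by
    unfold nf
    simp_rw [Finset.sum_filter]
    rw [Finset.sum_comm]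
    apply Finset.sum_congr rfl
    intro y _
    rw [← Finset.sum_filter, Finset.sum_const, nsmul_eq_mul, mul_comm]
    congr 2
    congr 1
    ext R
    simp only [Finset.mem_filter, mem_pts, Submodule.mem_inf, LinearMap.mem_ker]
  have h2 : ∀ y : ℙ F V, f y * ((pts (H ⊓ LinearMap.ker (P.f y.rep))).card : ℤ) =
      (geo 4 k : ℤ) * f y + 4 ^ k * (if H ≤ LinearMap.ker (P.f y.rep) then f y else 0) := by
    intro y
    rw [card_pts, hF]
    by_cases hle : H ≤ LinearMap.ker (P.f y.rep)
    · rw [if_pos hle, inf_eq_left.2 hle, hH, geo_succ']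
      push_cast
      ring
    · rw [if_neg hle]
      have h3 := Polar.finrank_inf_ker _ _ hle
      rw [hH] at h3
      have h4 : finrank F (H ⊓ LinearMap.ker (P.f y.rep) : Submodule F V) = k := by omega
      rw [h4]
      ring
  rw [h1, Finset.sum_congr rfl fun y _ => h2 y, Finset.sum_add_distrib, ← Finset.mul_sum, ← Finset.mul_sum]
  congr 2
  unfold np
  rw [Finset.sum_filter]

end Pool.Agent.Helper94.U4
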